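import Pool.Agent.BEL.StmtsE

/-!
Squad BEL, row GRP (helper33): existence of the free group.
-/

namespace Pool.Agent.BEL.H33

open MeasureTheory Filter Topology Set
open scoped InnerProductSpace ENNReal

noncomputable section

section diag

variable {H : Type} [NormedAddCommGroup H] [InnerProductSpace ℝ H] {κ : Type}

lemma diag_mem (b : HilbertBasis κ ℝ H) (m : κ → ℝ) (hm : ∀ j, |m j| ≤ 1) (x : H) :
    Memℓp (fun j => m j * b.repr x j) 2 := by
  have h := (b.repr x).2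
  refine memℓp_gen ?_
  have h2 := h.summable (by norm_num)
  refine Summable.of_nonneg_of_le (fun j => by positivity) (fun j => ?_) h2
  have h0 : ‖m j * b.repr x j‖ ≤ ‖b.repr x j‖ := by
    rw [norm_mul, Real.norm_eq_abs]
    exact mul_le_of_le_one_left (norm_nonneg _) (hm j)
  exact Real.rpow_le_rpow (norm_nonneg _) h0 (by norm_num)

/-- the diagonal operator, as a function -/
def dgf (b : HilbertBasis κ ℝ H) (m : κ → ℝ) (hm : ∀ j, |m j| ≤ 1) (x : H) : H :=
  b.repr.symm ⟨fun j => m j * b.repr x j, diag_mem b m hm x⟩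

lemma dgf_inner (b : HilbertBasis κ ℝ H) (m : κ → ℝ) (hm : ∀ j, |m j| ≤ 1) (x : H) (j : κ) :
    ⟪b j, dgf b m hm x⟫_ℝ = m j * ⟪b j, x⟫_ℝ := by
  rw [← HilbertBasis.repr_apply_apply, ← HilbertBasis.repr_apply_apply]
  unfold dgf
  rw [LinearIsometryEquiv.apply_symm_apply]

lemma eq_of_inner (b : HilbertBasis κ ℝ H) {x y : H} (h : ∀ j, ⟪b j, x⟫_ℝ = ⟪b j, y⟫_ℝ) :
    x = y := by
  apply b.repr.injective
  ext j
  rw [HilbertBasis.repr_apply_apply, HilbertBasis.repr_apply_apply]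
  exact h j

lemma dgf_norm (b : HilbertBasis κ ℝ H) (m : κ → ℝ) (hm : ∀ j, |m j| ≤ 1) (x : H) :
    ‖dgf b m hm x‖ ≤ 1 * ‖x‖ := by
  rw [one_mul]
  have h1 := b.hasSum_inner_mul_inner (dgf b m hm x) (dgf b m hm x)
  have h2 := b.hasSum_inner_mul_inner x x
  have h3 : ⟪dgf b m hm x, dgf b m hm x⟫_ℝ ≤ ⟪x, x⟫_ℝ := by
    refine hasSum_le (fun j => ?_) h1 h2
    rw [real_inner_comm (b j) (dgf b m hm x), real_inner_comm (b j) x, dgf_inner]
    have h4 : m j * m j ≤ 1 := by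
      have := abs_le.mp (hm j)
      nlinarith [this.1, this.2]
    nlinarith [mul_self_nonneg (⟪b j, x⟫_ℝ)]
  rw [real_inner_self_eq_norm_sq, real_inner_self_eq_norm_sq] at h3
  exact le_of_sq_le_sq h3 (norm_nonneg _)

/-- the diagonal operator -/
def dg (b : HilbertBasis κ ℝ H) (m : κ → ℝ) (hm : ∀ j, |m j| ≤ 1) : H →L[ℝ] H :=
  LinearMap.mkContinuous
    { toFun := dgf b m hm
      map_add' := fun x y => eq_of_inner b fun j => by
        rw [inner_add_right, dgf_inner, dgf_inner, dgf_inner, inner_add_right, mul_add]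
      map_smul' := fun c x => eq_of_inner b fun j => by
        rw [RingHom.id_apply, real_inner_smul_right, dgf_inner, dgf_inner, real_inner_smul_right]
        ring }
    1 (fun x => dgf_norm b m hm x)

lemma dg_inner (b : HilbertBasis κ ℝ H) (m : κ → ℝ) (hm : ∀ j, |m j| ≤ 1) (x : H) (j : κ) :
    ⟪b j, dg b m hm x⟫_ℝ = m j * ⟪b j, x⟫_ℝ := dgf_inner b m hm x j

/-- The diagonal operator of a bounded family. -/
theorem exists_diag (b : HilbertBasis κ ℝ H) (m : κ → ℝ) (M : ℝ) (hm : ∀ j, |m j| ≤ M) :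
    ∃ D : H →L[ℝ] H, ∀ x j, ⟪b j, D x⟫_ℝ = m j * ⟪b j, x⟫_ℝ := by
  rcases lt_or_ge 0 M with hM | hM
  · have h1 : ∀ j, |m j / M| ≤ 1 := fun j => by
      rw [abs_div, abs_of_pos hM]
      exact (div_le_one hM).mpr (hm j)
    refine ⟨M • dg b (fun j => m j / M) h1, fun x j => ?_⟩
    rw [_root_.smul_apply, real_inner_smul_right, dg_inner]
    field_simp
  · refine ⟨0, fun x j => ?_⟩
    have h0 : m j = 0 := abs_eq_zero.mp (le_antisymm ((hm j).trans hM) (abs_nonneg _))
    rw [_root_.zero_apply, inner_zero_right, h0, zero_mul]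

end diag

theorem grp : GrpStmt := by
  intro H _ _ _ κ b om
  have hC : ∀ t : ℝ, ∃ D : H →L[ℝ] H, ∀ x j, ⟪b j, D x⟫_ℝ = Real.cos (om j * t) * ⟪b j, x⟫_ℝ :=
    fun t => exists_diag b (fun j => Real.cos (om j * t)) 1 (fun j => Real.abs_cos_le_one _)
  have hS : ∀ t : ℝ, ∃ D : H →L[ℝ] H, ∀ x j, ⟪b j, D x⟫_ℝ = Real.sin (om j * t) * ⟪b j, x⟫_ℝ :=
    fun t => exists_diag b (fun j => Real.sin (om j * t)) 1 (fun j => Real.abs_sin_le_one _)
  choose C hC using hC
  choose S hS using hS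
  refine ⟨fun t => ((WithLp.prodContinuousLinearEquiv 2 ℝ H H).symm : (H × H) →L[ℝ] KK H).comp
    (((C t).comp P1 + (S t).comp P2).prod (-(S t).comp P1 + (C t).comp P2)), ?_, ?_⟩
  · intro t z j
    have h : P1 (((WithLp.prodContinuousLinearEquiv 2 ℝ H H).symm : (H × H) →L[ℝ] KK H).comp
        (((C t).comp P1 + (S t).comp P2).prod (-(S t).comp P1 + (C t).comp P2)) z) =
        C t (P1 z) + S t (P2 z) := rfl
    rw [h, inner_add_right, hC, hS]
  · intro t z j
    have h : P2 (((WithLp.prodContinuousLinearEquiv 2 ℝ H H).symm : (H × H) →L[ℝ] KK H).comp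
        (((C t).comp P1 + (S t).comp P2).prod (-(S t).comp P1 + (C t).comp P2)) z) =
        -S t (P1 z) + C t (P2 z) := rfl
    rw [h, inner_add_right, inner_neg_right, hC, hS]
    ring

end

end Pool.Agent.BEL.H33
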