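import Pool.Agent.BEL.StmtsP
import Pool.Agent.Helper91_BE01.EMB
import Pool.Agent.Helper94_BE01.Dns

/-!
Squad BEL, row CLO (helper33): the embedding is injective.
-/

namespace Pool.Agent.BEL.H33

open Set Filter Topology MeasureTheory
open scoped InnerProductSpace ENNReal
open Pool.Agent.BE01 Pool.Agent.BE01.H91

noncomputable section

variable {d : ℕ}

lemma inner_grad (ψ : En d → ℝ) (x e : En d) : ⟪e, gradient ψ x⟫_ℝ = fderiv ℝ ψ x e := by
  rw [real_inner_comm]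
  unfold gradient
  exact InnerProductSpace.toDual_symm_apply

lemma fd_memLp {Ω : Set (En d)} {φ : En d → ℝ} (h : Tst Ω φ) (e : En d) :
    MemLp (fun x => fderiv ℝ φ x e) 2 (mu Ω) := by
  have h1 : Continuous (fderiv ℝ φ) := h.1.continuous_fderiv (by simp)
  refine Continuous.memLp_of_hasCompactSupport (h1.clm_apply continuous_const) ?_
  exact (h.2.1.fderiv ℝ).comp_left (g := fun L : En d →L[ℝ] ℝ => L e) rfl

/-- integration by parts for two test functions -/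
lemma ibp {Ω : Set (En d)} {φ ψ : En d → ℝ} (hφ : Tst Ω φ) (hψ : Tst Ω ψ) (e : En d) :
    ∫ x, φ x * fderiv ℝ ψ x e ∂(mu Ω) = -∫ x, fderiv ℝ φ x e * ψ x ∂(mu Ω) := by
  have hz : ∀ x, x ∉ Ω → φ x = 0 := fun x hx => by
    by_contra h
    exact hx (hφ.2.2 (subset_tsupport φ h))
  have hz' : ∀ x, x ∉ Ω → ψ x = 0 := fun x hx => by
    by_contra h
    exact hx (hψ.2.2 (subset_tsupport ψ h))
  have e1 : ∫ x, φ x * fderiv ℝ ψ x e ∂(mu Ω) = ∫ x, φ x * fderiv ℝ ψ x e :=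
    setIntegral_eq_integral_of_forall_compl_eq_zero fun x hx => by rw [hz x hx, zero_mul]
  have e2 : ∫ x, fderiv ℝ φ x e * ψ x ∂(mu Ω) = ∫ x, fderiv ℝ φ x e * ψ x :=
    setIntegral_eq_integral_of_forall_compl_eq_zero fun x hx => by rw [hz' x hx, mul_zero]
  rw [e1, e2]
  have c1 : Continuous (fun x => fderiv ℝ φ x e) :=
    (hφ.1.continuous_fderiv (by simp)).clm_apply continuous_const
  have c2 : Continuous (fun x => fderiv ℝ ψ x e) :=
    (hψ.1.continuous_fderiv (by simp)).clm_apply continuous_const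
  have c3 : Continuous φ := hφ.1.continuous
  have c4 : Continuous ψ := hψ.1.continuous
  refine integral_mul_fderiv_eq_neg_fderiv_mul_of_integrable ?_ ?_ ?_
    (fun x _ => hφ.1.differentiable (by simp) x) (fun x _ => hψ.1.differentiable (by simp) x)
  · exact (c1.mul c4).integrable_of_hasCompactSupport hψ.2.1.mul_left
  · exact (c3.mul c2).integrable_of_hasCompactSupport hφ.2.1.mul_right
  · exact (c3.mul c4).integrable_of_hasCompactSupport hφ.2.1.mul_right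

theorem clo : CloStmt := by
  intro d Ω ι hΩ hι G hG
  have hfin := mu_fin hΩ
  have key : ∀ (φ : TT Ω) (e : En d),
      ⟪tl Ω 2 φ, (innerSL ℝ e).compLpL 2 (mu Ω) (G : Lp (En d) 2 (mu Ω))⟫_ℝ =
        -⟪(fd_memLp φ.2 e).toLp (fun x => fderiv ℝ φ.1 x e), ι G⟫_ℝ := by
    intro φ e
    have hfun := (ge_dense Ω).equalizer
      (g := fun H : VV Ω =>
        ⟪tl Ω 2 φ, (innerSL ℝ e).compLpL 2 (mu Ω) (H : Lp (En d) 2 (mu Ω))⟫_ℝ)
      (h := fun H : VV Ω => -⟪(fd_memLp φ.2 e).toLp (fun x => fderiv ℝ φ.1 x e), ι H⟫_ℝ)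
      (continuous_const.inner
        (((innerSL ℝ e).compLpL 2 (mu Ω)).continuous.comp continuous_subtype_val))
      (continuous_const.inner ι.continuous).neg ?_
    · exact congrFun hfun G
    · funext ψ
      show ⟪tl Ω 2 φ, (innerSL ℝ e).compLpL 2 (mu Ω) (gr Ω ψ)⟫_ℝ =
        -⟪(fd_memLp φ.2 e).toLp (fun x => fderiv ℝ φ.1 x e), ι (ge Ω ψ)⟫_ℝ
      rw [L2.inner_def, L2.inner_def]
      have h1 : ∫ x, ⟪tl Ω 2 φ x, (innerSL ℝ e).compLpL 2 (mu Ω) (gr Ω ψ) x⟫_ℝ ∂(mu Ω) =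
          ∫ x, φ.1 x * fderiv ℝ ψ.1 x e ∂(mu Ω) := by
        refine integral_congr_ae ?_
        filter_upwards [tl_ae Ω 2 φ, gr_ae Ω ψ,
          (innerSL ℝ e).coeFn_compLpL (𝕜' := ℝ) (gr Ω ψ)] with x h1 h2 h3
        rw [h1, h3, h2, innerSL_apply_apply, inner_grad]
        simp [mul_comm]
      have h2 : ∫ x, ⟪(fd_memLp φ.2 e).toLp (fun x => fderiv ℝ φ.1 x e) x, ι (ge Ω ψ) x⟫_ℝ
          ∂(mu Ω) = ∫ x, fderiv ℝ φ.1 x e * ψ.1 x ∂(mu Ω) := by
        refine integral_congr_ae ?_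
        filter_upwards [(fd_memLp φ.2 e).coeFn_toLp, hι ψ.1 ψ.2 (ge Ω ψ) (gr_ae Ω ψ)] with x h1 h2
        rw [h1, h2]
        simp [mul_comm]
      rw [h1, h2]
      exact ibp φ.2 ψ.2 e
  -- the components of `G` are zero
  have hz : ∀ e : En d, (innerSL ℝ e).compLpL 2 (mu Ω) (G : Lp (En d) 2 (mu Ω)) = 0 := by
    intro e
    have hd : Dense {f : Lp ℝ 2 (mu Ω) | ∃ ψ, Tst Ω ψ ∧ f =ᵐ[mu Ω] ψ} :=
      dense_iff_closure_eq.mpr (H94.dns d Ω hΩ)
    have h1 := Continuous.ext_on hd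
      (f := fun f : Lp ℝ 2 (mu Ω) =>
        ⟪f, (innerSL ℝ e).compLpL 2 (mu Ω) (G : Lp (En d) 2 (mu Ω))⟫_ℝ)
      (g := fun _ => 0) (continuous_id.inner continuous_const) continuous_const ?_
    · exact inner_self_eq_zero.mp (congrFun h1 _)
    · rintro f ⟨ψ, hψ, hf⟩
      have h2 : f = tl Ω 2 ⟨ψ, hψ⟩ := Lp.ext (hf.trans (tl_ae Ω 2 ⟨ψ, hψ⟩).symm)
      show ⟪f, _⟫_ℝ = 0
      rw [h2, key, hG, inner_zero_right, neg_zero]
  have hall : ∀ᵐ x ∂(mu Ω), ∀ i : Fin d, (G : Lp (En d) 2 (mu Ω)) x i = 0 := by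
    rw [ae_all_iff]
    intro i
    have h1 := (innerSL ℝ (EuclideanSpace.single i (1 : ℝ) : En d)).coeFn_compLpL (𝕜' := ℝ)
      (G : Lp (En d) 2 (mu Ω))
    rw [hz] at h1
    filter_upwards [h1, Lp.coeFn_zero ℝ 2 (mu Ω)] with x h2 h3
    rw [h3, innerSL_apply_apply, EuclideanSpace.inner_single_left] at h2
    simpa using h2.symm
  apply Subtype.ext
  rw [Submodule.coe_zero, Lp.eq_zero_iff_ae_eq_zero]
  filter_upwards [hall] with x hx
  ext i
  exact hx i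

end

end Pool.Agent.BEL.H33
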