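import Pool.Agent.BEL.StmtsP

/-!
Squad BEL, row SOB (helper33): the Sobolev inequality in every dimension.
-/

namespace Pool.Agent.BEL.H33

open Set Filter Topology MeasureTheory
open scoped InnerProductSpace ENNReal NNReal
open Pool.Agent.BE01

noncomputable section

theorem norm_grad {d : ℕ} (ψ : En d → ℝ) (x : En d) : ‖gradient ψ x‖ = ‖fderiv ℝ ψ x‖ := by
  unfold gradient
  exact LinearIsometryEquiv.norm_map _ _

lemma fin_mu {d : ℕ} {Ω : Set (En d)} (hΩ : Dom Ω) : IsFiniteMeasure (mu Ω) := by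
  refine ⟨?_⟩
  rw [mu, Measure.restrict_apply_univ]
  exact hΩ.2.1.measure_lt_top

lemma fd_restrict {d : ℕ} {Ω : Set (En d)} {ψ : En d → ℝ} (hψ : Tst Ω ψ) (p : ℝ≥0∞) :
    eLpNorm (fderiv ℝ ψ) p volume = eLpNorm (fderiv ℝ ψ) p (mu Ω) := by
  have hsup' : Function.support (fderiv ℝ ψ) ⊆ Ω := (support_fderiv_subset ℝ).trans hψ.2.2
  have h31 : Function.support (fun x => ‖fderiv ℝ ψ x‖) ⊆ Ω := by
    intro x hx
    exact hsup' fun h => hx (norm_eq_zero.2 h)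
  have h32 := eLpNorm_restrict_eq_of_support_subset (μ := volume) (p := p) h31
  rw [← eLpNorm_norm (fderiv ℝ ψ), ← h32, eLpNorm_norm, mu]

lemma fd_grad {d : ℕ} {Ω : Set (En d)} (ψ : En d → ℝ) :
    eLpNorm (fderiv ℝ ψ) 2 (mu Ω) = eLpNorm (gradient ψ) 2 (mu Ω) :=
  eLpNorm_congr_norm_ae (Eventually.of_forall fun x => (norm_grad ψ x).symm)

/-- Hoelder for the derivative -/
lemma fd_holder {d : ℕ} {Ω : Set (En d)} {ψ : En d → ℝ} (hψ : Tst Ω ψ) {p : ℝ≥0∞}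
    (hp : p ≤ 2) :
    eLpNorm (fderiv ℝ ψ) p volume ≤ eLpNorm (gradient ψ) 2 (mu Ω) *
      (mu Ω univ) ^ (1 / p.toReal - 1 / (2 : ℝ≥0∞).toReal) := by
  have hc1 : ContDiff ℝ 1 ψ := hψ.1.of_le (by exact_mod_cast le_top)
  have hcont : Continuous (fderiv ℝ ψ) := hc1.continuous_fderiv one_ne_zero
  rw [fd_restrict hψ, ← fd_grad (Ω := Ω) ψ]
  exact eLpNorm_le_eLpNorm_mul_rpow_measure_univ hp hcont.aestronglyMeasurable

/-- from a constant in `[0, ∞]` to a real constant -/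
lemma real_const {d : ℕ} {Ω : Set (En d)} {q K : ℝ≥0∞} (hK : K ≠ ∞)
    (h : ∀ ψ, Tst Ω ψ → eLpNorm ψ q (mu Ω) ≤ K * eLpNorm (gradient ψ) 2 (mu Ω)) :
    ∃ C : ℝ, 0 < C ∧ ∀ ψ, Tst Ω ψ →
      eLpNorm ψ q (mu Ω) ≤ ENNReal.ofReal C * eLpNorm (gradient ψ) 2 (mu Ω) := by
  refine ⟨K.toReal + 1, by positivity, fun ψ hψ => (h ψ hψ).trans ?_⟩
  have hKle : K ≤ ENNReal.ofReal (K.toReal + 1) := by
    rw [← ENNReal.ofReal_toReal hK, ENNReal.toReal_ofReal ENNReal.toReal_nonneg]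
    exact ENNReal.ofReal_le_ofReal (by linarith)
  exact mul_le_mul_left hKle _

theorem sob_aux (d : ℕ) (Ω : Set (En d)) (hΩ : Dom Ω) (p q : ℝ≥0) (hp1 : 1 ≤ p) (hp2 : p ≤ 2)
    (hpd : (p : ℝ) < d) (hpq : (p : ℝ)⁻¹ - (d : ℝ)⁻¹ ≤ (q : ℝ)⁻¹) : ∃ C : ℝ, 0 < C ∧
    ∀ ψ, Tst Ω ψ → eLpNorm ψ (q : ℝ≥0∞) (mu Ω) ≤
      ENNReal.ofReal C * eLpNorm (gradient ψ) 2 (mu Ω) := by
  have hfr : Module.finrank ℝ (En d) = d := by simp
  have hfin := fin_mu hΩ
  have hexp : 0 ≤ 1 / (p : ℝ≥0∞).toReal - 1 / (2 : ℝ≥0∞).toReal := by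
    rw [ENNReal.coe_toReal, ENNReal.toReal_ofNat, sub_nonneg]
    have h1 : (0 : ℝ) < p := lt_of_lt_of_le one_pos (by exact_mod_cast hp1)
    have h2 : (p : ℝ) ≤ 2 := by exact_mod_cast hp2
    exact one_div_le_one_div_of_le h1 h2
  refine real_const (K := (eLpNormLESNormFDerivOfLeConst ℝ (volume : Measure (En d)) Ω p q : ℝ≥0∞) *
    (mu Ω univ) ^ (1 / (p : ℝ≥0∞).toReal - 1 / (2 : ℝ≥0∞).toReal))
    (ENNReal.mul_ne_top ENNReal.coe_ne_top
      (ENNReal.rpow_ne_top_of_nonneg hexp (measure_ne_top _ _))) fun ψ hψ => ?_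
  have hsup : Function.support ψ ⊆ Ω := (subset_tsupport ψ).trans hψ.2.2
  have hc1 : ContDiff ℝ 1 ψ := hψ.1.of_le (by exact_mod_cast le_top)
  have h1 : eLpNorm ψ q (mu Ω) ≤ eLpNorm ψ q volume :=
    eLpNorm_mono_measure ψ Measure.restrict_le_self
  have h2 : eLpNorm ψ (q : ℝ≥0∞) volume ≤
      eLpNormLESNormFDerivOfLeConst ℝ (volume : Measure (En d)) Ω p q *
        eLpNorm (fderiv ℝ ψ) p volume := by
    refine eLpNorm_le_eLpNorm_fderiv_of_le volume hc1 hsup hp1 ?_ ?_ hΩ.2.1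
    · rw [hfr]
      exact_mod_cast hpd
    · rw [hfr]
      exact_mod_cast hpq
  have h4 := fd_holder hψ (p := (p : ℝ≥0∞)) (by exact_mod_cast hp2)
  refine (h1.trans h2).trans ((mul_le_mul_right h4 _).trans ?_)
  rw [mul_comm (eLpNorm (gradient ψ) 2 (mu Ω)), ← mul_assoc]

/-- the isometry of the line with `En 1` -/
def line : ℝ ≃ₗᵢ[ℝ] En 1 := (OrthonormalBasis.singleton (Fin 1) ℝ).repr

theorem sob_one (Ω : Set (En 1)) (hΩ : Dom Ω) (q : ℝ≥0∞) : ∃ C : ℝ, 0 < C ∧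
    ∀ ψ, Tst Ω ψ → eLpNorm ψ q (mu Ω) ≤ ENNReal.ofReal C * eLpNorm (gradient ψ) 2 (mu Ω) := by
  have hfin := fin_mu hΩ
  have he : 0 ≤ 1 / (1 : ℝ≥0∞).toReal - 1 / (2 : ℝ≥0∞).toReal := by
    rw [ENNReal.toReal_one, ENNReal.toReal_ofNat]
    norm_num
  refine real_const (K := (mu Ω univ) ^ (1 / (1 : ℝ≥0∞).toReal - 1 / (2 : ℝ≥0∞).toReal) *
    (mu Ω univ) ^ q.toReal⁻¹) (ENNReal.mul_ne_top
      (ENNReal.rpow_ne_top_of_nonneg he (measure_ne_top _ _))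
      (ENNReal.rpow_ne_top_of_nonneg (inv_nonneg.2 ENNReal.toReal_nonneg) (measure_ne_top _ _)))
    fun ψ hψ => ?_
  have hc1 : ContDiff ℝ 1 ψ := hψ.1.of_le (by exact_mod_cast le_top)
  have hdiff : Differentiable ℝ ψ := hc1.differentiable one_ne_zero
  -- the function on the line
  have hf : ContDiff ℝ 1 (fun t => ψ (line t)) := hc1.comp line.contDiff
  have hfc : HasCompactSupport (fun t => ψ (line t)) :=
    hψ.2.1.comp_homeomorph line.toHomeomorph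
  have hder : ∀ t, ‖deriv (fun t => ψ (line t)) t‖ₑ ≤ ‖fderiv ℝ ψ (line t)‖ₑ := by
    intro t
    have h1 : HasDerivAt (fun t : ℝ => (line t : En 1)) (line 1) t := by
      have h := line.toContinuousLinearEquiv.hasFDerivAt (x := t)
      exact h.hasDerivAt
    have h2 : HasDerivAt (fun t => ψ (line t)) (fderiv ℝ ψ (line t) (line 1)) t :=
      (hdiff (line t)).hasFDerivAt.comp_hasDerivAt t h1
    rw [h2.deriv]
    have h3 : ‖fderiv ℝ ψ (line t) (line 1)‖ ≤ ‖fderiv ℝ ψ (line t)‖ := by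
      have h4 := (fderiv ℝ ψ (line t)).le_opNorm (line 1)
      rw [LinearIsometryEquiv.norm_map, norm_one, mul_one] at h4
      exact h4
    rw [← ofReal_norm, ← ofReal_norm]
    exact ENNReal.ofReal_le_ofReal h3
  have hsup : ∀ x, ‖ψ x‖ₑ ≤ eLpNorm (fderiv ℝ ψ) 1 volume := by
    intro x
    have h1 := HasCompactSupport.enorm_le_lintegral_Ici_deriv hf hfc (line.symm x)
    rw [LinearIsometryEquiv.apply_symm_apply] at h1
    calc ‖ψ x‖ₑ ≤ ∫⁻ y in Iic (line.symm x), ‖deriv (fun t => ψ (line t)) y‖ₑ := h1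
      _ ≤ ∫⁻ y, ‖deriv (fun t => ψ (line t)) y‖ₑ := setLIntegral_le_lintegral _ _
      _ ≤ ∫⁻ y, ‖fderiv ℝ ψ (line y)‖ₑ := lintegral_mono hder
      _ = ∫⁻ y, ‖fderiv ℝ ψ y‖ₑ :=
        (LinearIsometryEquiv.measurePreserving line).lintegral_comp
          (hc1.continuous_fderiv one_ne_zero).enorm.measurable
      _ = eLpNorm (fderiv ℝ ψ) 1 volume := (eLpNorm_one_eq_lintegral_enorm).symm
  have h1 := eLpNorm_le_of_ae_enorm_bound (μ := mu Ω) (p := q)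
    (Eventually.of_forall hsup)
  rw [smul_eq_mul] at h1
  have h2 := fd_holder hψ (p := 1) (by norm_num)
  refine h1.trans ((mul_le_mul_left h2 _).trans (le_of_eq ?_))
  rw [mul_comm (eLpNorm (gradient ψ) 2 (mu Ω)), mul_assoc, mul_comm (eLpNorm (gradient ψ) 2 (mu Ω)),
    ← mul_assoc]

theorem sob : SobStmt := by
  intro d Ω p hd hΩ hp hdp
  have hp0 : 0 < p := lt_of_lt_of_le two_pos hp
  have hq : ENNReal.ofReal p = ((Real.toNNReal p : ℝ≥0) : ℝ≥0∞) := rfl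
  have hqr : ((Real.toNNReal p : ℝ≥0) : ℝ) = p := Real.coe_toNNReal p hp0.le
  rcases Nat.lt_or_ge 2 d with h3 | h3
  · have hd3 : (2 : ℝ) < d := by exact_mod_cast h3
    rw [hq]
    refine sob_aux d Ω hΩ 2 (Real.toNNReal p) (by norm_num) le_rfl (by exact_mod_cast h3) ?_
    rw [hqr, NNReal.coe_ofNat]
    have hd0 : (0 : ℝ) < d := by linarith
    rw [sub_le_iff_le_add, ← one_div, ← one_div, ← one_div, div_add_div _ _ hp0.ne' hd0.ne',
      div_le_div_iff₀ two_pos (by positivity)]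
    linarith
  · interval_cases d
    · rw [hq]
      exact sob_one Ω hΩ _
    · rw [hq]
      have hq1 : 1 ≤ 2 * p / (p + 2) := by
        rw [le_div_iff₀ (by linarith)]
        linarith
      have hq2 : 2 * p / (p + 2) < 2 := by
        rw [div_lt_iff₀ (by linarith)]
        linarith
      have hqq : ((Real.toNNReal (2 * p / (p + 2)) : ℝ≥0) : ℝ) = 2 * p / (p + 2) :=
        Real.coe_toNNReal _ (by linarith)
      refine sob_aux 2 Ω hΩ (Real.toNNReal (2 * p / (p + 2))) (Real.toNNReal p) ?_ ?_ ?_ ?_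
      · rw [← NNReal.coe_le_coe, hqq, NNReal.coe_one]
        exact hq1
      · rw [← NNReal.coe_le_coe, hqq, NNReal.coe_ofNat]
        exact hq2.le
      · rw [hqq]
        push_cast
        exact hq2
      · rw [hqq, hqr]
        push_cast
        rw [inv_div]
        have : (p + 2) / (2 * p) - 2⁻¹ = p⁻¹ := by
          field_simp
          ring
        rw [this]

end

end Pool.Agent.BEL.H33
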