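import Pool.Agent.BEL.StmtsP

/-!
Squad BEL, row ENM (helper33): enumeration in decreasing order.
-/

namespace Pool.Agent.BEL.H33

open Set Filter Topology

/-- Enumeration of an infinite set by an injective map to a linear order with finite initial
segments. -/
lemma exists_enum {κ ι : Type} [LinearOrder ι] (hκ : Infinite κ) (L : κ → ι)
    (hL : Function.Injective L) (hfin : ∀ k, {j | L j < L k}.Finite) :
    ∃ r : κ → ℕ, Function.Bijective r ∧ ∀ j k, L j < L k → r j < r k := by
  classical
  obtain ⟨r, hr⟩ : ∃ r : κ → ℕ, ∀ k, r k = (hfin k).toFinset.card := ⟨_, fun k => rfl⟩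
  have hmono : ∀ j k, L j < L k → r j < r k := by
    intro j k hjk
    rw [hr, hr]
    refine Finset.card_lt_card ?_
    rw [Finset.ssubset_iff_of_subset]
    · exact ⟨j, by simpa using hjk, by simp⟩
    · intro i hi
      rw [Finite.mem_toFinset, mem_ofPred_eq] at hi ⊢
      exact hi.trans hjk
  have hinj : Function.Injective r := by
    intro j k hjk
    rcases lt_trichotomy (L j) (L k) with h | h | h
    · exact absurd hjk (hmono j k h).ne
    · exact hL h
    · exact absurd hjk (hmono k j h).ne'
  refine ⟨r, ⟨hinj, fun n => ?_⟩, hmono⟩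
  -- some element has rank at least `n`
  have hex : ∃ m, ∃ k, r k = m ∧ n ≤ m := by
    by_contra hno
    push Not at hno
    refine (not_injective_infinite_finite (fun k : κ => (⟨r k, hno _ k rfl⟩ : Fin n))) ?_
    intro j k hjk
    exact hinj (congrArg Fin.val hjk)
  obtain ⟨k, hk, hn⟩ := Nat.find_spec hex
  have hmin : ∀ j, L j < L k → r j < n := by
    intro j hjk
    by_contra hge
    have h1 := hmono j k hjk
    rw [hk] at h1
    exact Nat.find_min hex h1 ⟨j, rfl, not_lt.mp hge⟩
  refine ⟨k, le_antisymm ?_ (by rw [hk]; exact hn)⟩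
  rw [hr]
  calc (hfin k).toFinset.card ≤ (Finset.range n).card := by
        refine Finset.card_le_card_of_injOn r (fun j hj => ?_) hinj.injOn
        rw [Finset.mem_coe, Finset.mem_range]
        rw [Finset.mem_coe, Finite.mem_toFinset, mem_ofPred_eq] at hj
        exact hmin j hj
    _ = n := Finset.card_range n

theorem enm : EnmStmt := by
  intro κ s hκ hs hfin
  have hcount : Countable κ := by
    have h1 : (univ : Set κ) = ⋃ n : ℕ, {k | 1 / ((n : ℝ) + 1) ≤ s k} := by
      refine Eq.symm (eq_univ_of_forall fun k => ?_)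
      obtain ⟨n, hn⟩ := exists_nat_one_div_lt (hs k)
      exact mem_iUnion.mpr ⟨n, hn.le⟩
    rw [← countable_univ_iff, h1]
    exact countable_iUnion fun n => (hfin _ (by positivity)).countable
  obtain ⟨g, hg⟩ := exists_injective_nat κ
  obtain ⟨r, hr, hmono⟩ := exists_enum hκ (fun k => (toLex (-(s k), g k) : ℝ ×ₗ ℕ))
    (fun j k hjk => by
      have h := congrArg (fun x => (ofLex x).2) hjk
      exact hg h)
    (fun k => (hfin (s k) (hs k)).subset fun j hj => by
      rw [mem_ofPred_eq, Prod.Lex.toLex_lt_toLex] at hj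
      rw [mem_ofPred_eq]
      rcases hj with h | h
      · linarith
      · linarith [h.1])
  refine ⟨(Equiv.ofBijective r hr).symm, ?_, ?_⟩
  · intro n m hnm
    rcases hnm.eq_or_lt with rfl | hlt
    · exact le_rfl
    have hn : r ((Equiv.ofBijective r hr).symm n) = n := (Equiv.ofBijective r hr).apply_symm_apply n
    have hm : r ((Equiv.ofBijective r hr).symm m) = m := (Equiv.ofBijective r hr).apply_symm_apply m
    obtain ⟨j, hj⟩ : ∃ j, j = (Equiv.ofBijective r hr).symm n := ⟨_, rfl⟩
    obtain ⟨k, hk⟩ : ∃ k, k = (Equiv.ofBijective r hr).symm m := ⟨_, rfl⟩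
    show s ((Equiv.ofBijective r hr).symm m) ≤ s ((Equiv.ofBijective r hr).symm n)
    rw [← hj, ← hk]
    rw [← hj] at hn
    rw [← hk] at hm
    by_contra hlt2
    rw [not_le] at hlt2
    have h2 := hmono k j (by
      rw [Prod.Lex.toLex_lt_toLex]
      left
      show -(s k) < -(s j)
      linarith)
    omega
  · rw [tendsto_order]
    refine ⟨fun a ha => Eventually.of_forall fun n => ha.trans (hs _), fun a ha => ?_⟩
    rw [← Nat.cofinite_eq_atTop, Filter.eventually_cofinite]
    refine ((hfin a ha).preimage (Equiv.ofBijective r hr).symm.injective.injOn).subset ?_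
    intro n hn
    rw [mem_ofPred_eq, not_lt] at hn
    exact hn

end Pool.Agent.BEL.H33
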